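import Pool.Agent.H82.Golod.Main

/-!
The generic Hankel matrix of size 3 x 6 gives a Golod ring in every characteristic different from
two.
-/

set_option autoImplicit false

namespace Pool.Agent.Results.MP_811251_al.GolodHankel

open Pool.Agent.H82.Golod

universe u

theorem coeff_one_add_X_pow (m n : ℕ) :
    PowerSeries.coeff n ((1 + PowerSeries.X : PowerSeries ℤ) ^ m) = (m.choose n : ℤ) := by
  have h1 : (1 + PowerSeries.X : PowerSeries ℤ) ^ m =
      (((1 + Polynomial.X) ^ m : Polynomial ℤ) : PowerSeries ℤ) := by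
    rw [Polynomial.coe_pow, Polynomial.coe_add, Polynomial.coe_one, Polynomial.coe_X]
  rw [h1, Polynomial.coeff_coe, Polynomial.coeff_one_add_X_pow]

theorem series_betti (b : ℕ → ℤ) (b0 : b 0 = 1) (bs : ∀ n, b (n + 1) = 7 ^ n * 8) :
    PowerSeries.mk b * (1 - 7 * PowerSeries.X) = 1 + PowerSeries.X := by
  ext n
  have h1 : PowerSeries.mk b * (1 - 7 * PowerSeries.X) =
      PowerSeries.mk b - PowerSeries.C 7 * (PowerSeries.mk b * PowerSeries.X) := by
    rw [show (PowerSeries.C 7 : PowerSeries ℤ) = 7 from map_ofNat _ 7]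
    ring
  rw [h1, map_sub, map_add, PowerSeries.coeff_mk, PowerSeries.coeff_C_mul]
  cases n with
  | zero =>
    rw [PowerSeries.coeff_zero_mul_X, b0, PowerSeries.coeff_zero_X]
    simp
  | succ n =>
    rw [PowerSeries.coeff_succ_mul_X, PowerSeries.coeff_mk, bs, PowerSeries.coeff_one,
      if_neg (Nat.succ_ne_zero n), PowerSeries.coeff_X]
    cases n with
    | zero =>
      rw [b0]
      norm_num
    | succ n =>
      rw [bs, if_neg (by omega)]
      ring

theorem series_koszul (h : ℕ → ℤ) (hs : ∀ j, h (j + 1) + (8 : ℕ).choose (j + 2) =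
    8 * (7 : ℕ).choose (j + 1)) :
    1 - PowerSeries.mk (fun i => if 2 ≤ i then h (i - 1) else 0) =
      (1 - 7 * PowerSeries.X) * (1 + PowerSeries.X) ^ 7 := by
  ext n
  have h1 : (1 - 7 * PowerSeries.X) * (1 + PowerSeries.X : PowerSeries ℤ) ^ 7 =
      (1 + PowerSeries.X) ^ 7 - PowerSeries.C 7 * ((1 + PowerSeries.X) ^ 7 * PowerSeries.X) := by
    rw [show (PowerSeries.C 7 : PowerSeries ℤ) = 7 from map_ofNat _ 7]
    ring
  rw [h1, map_sub, map_sub, PowerSeries.coeff_mk, PowerSeries.coeff_C_mul, PowerSeries.coeff_one]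
  cases n with
  | zero =>
    rw [PowerSeries.coeff_zero_mul_X, coeff_one_add_X_pow]
    simp
  | succ n =>
    rw [PowerSeries.coeff_succ_mul_X, coeff_one_add_X_pow, coeff_one_add_X_pow,
      if_neg (Nat.succ_ne_zero n)]
    cases n with
    | zero => norm_num
    | succ j =>
      rw [if_pos (by omega), show j + 1 + 1 - 1 = j + 1 from rfl]
      have h2 := hs j
      have h3 : (8 : ℕ).choose (j + 2) = (7 : ℕ).choose (j + 1) + (7 : ℕ).choose (j + 2) :=
        Nat.choose_succ_succ 7 (j + 1)
      have h4 : ((8 : ℕ).choose (j + 2) : ℤ) = (7 : ℕ).choose (j + 1) + (7 : ℕ).choose (j + 2) := by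
        exact_mod_cast h3
      rw [h4] at h2
      have h5 : (j + 1 + 1) = j + 2 := rfl
      rw [h5]
      linarith

/-- For every field `k` of characteristic different from two, the quotient of the polynomial ring by
the ideal of the permanents of the `2 × 2` submatrices of the generic Hankel matrix of size `3 × 6`
is Golod. -/
theorem result (k : Type u) [Field k] (h2 : (2 : k) ≠ 0) :
    IsGolod k (permIdeal (hankel k 3 6)) := by
  have hM := minMult36 h2
  let a : Fin 8 → k := fun i => if i = 0 ∨ i = 7 then 1 else 0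
  have ha : ∑ i, algebraMap k (MvPolynomial (Fin 8) k ⧸ I36 k) (a i) * yy k i =
      yy k 0 + yy k 7 := by
    simp [a, Fin.sum_univ_eight]
  obtain ⟨hg, hspan⟩ := MinMult.cons (e := 7) hM a (by simp [a]) ha
  have hb : ∀ n, torDim k (I36 k) n = Fintype.card (Jt 7 n) := fun n =>
    finrank_tor_minMult (e := 7) hg _ hspan.symm n
  have hh : ∀ j, Module.finrank k (KoszulHomology (vars k (I36 k)) (j + 1)) +
      (7 + 1).choose (j + 2) = (7 + 1) * (7 : ℕ).choose (j + 1) := fun j =>
    finrank_koszul (e := 7) hM _ ha j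
  have key : IsGolod k (I36 k) := by
    unfold IsGolod
    have e1 := series_betti (fun i => (torDim k (I36 k) i : ℤ))
      (by rw [hb 0]; rfl)
      (by
        intro n
        rw [hb (n + 1), card_Jt_succ]
        push_cast
        ring)
    have e2 := series_koszul
      (fun i => (Module.finrank k (KoszulHomology (vars k (I36 k)) i) : ℤ))
      (by
        intro j
        exact_mod_cast hh j)
    rw [e2, ← mul_assoc, e1]
    ring
  exact key

end Pool.Agent.Results.MP_811251_al.GolodHankel
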